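import Pool.Agent.N566.VV.Defs3

/-!
# The generator `E` commutes with the minima
-/

set_option autoImplicit false

namespace Pool.Agent.N283.VV

open Pool.Agent.N566.VV
open Pool.Agent.H550R3.Jones (br brf Adm)
open Finset

/-- one summand of the generator -/
noncomputable def Et (N : ℕ) (v : ℂ) (f : F (Fin N)) (σ : ℕ → Fin N) (k : ℕ) : ℂ :=
  if h : (σ k : ℕ) + 1 < N then
    br v ((N : ℤ) - ((σ k : ℕ) + 1)) * f (Function.update σ k ⟨(σ k : ℕ) + 1, h⟩) else 0

/-- the weight -/
noncomputable def wv (N : ℕ) (v : ℂ) (x : Fin N) : ℂ := v ^ ((N : ℤ) - 1 - 2 * (x : ℕ))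

theorem Ea_eq (N : ℕ) (v : ℂ) (n : ℕ) (f : F (Fin N)) (σ : ℕ → Fin N) :
    Ea N v n f σ = ∑ k ∈ range n, (∏ j ∈ Ico (k + 1) n, wv N v (σ j)) * Et N v f σ k := rfl

theorem wv_rev (N : ℕ) (v : ℂ) (hv : v ≠ 0) (x : Fin N) : wv N v x * wv N v (Fin.rev x) = 1 := by
  unfold wv
  rw [← zpow_add₀ hv]
  have : ((N : ℤ) - 1 - 2 * ((x : ℕ) : ℤ) + ((N : ℤ) - 1 - 2 * (((Fin.rev x : Fin N) : ℕ) : ℤ))) = 0 := by
    have h1 : ((Fin.rev x : Fin N) : ℕ) = N - (x + 1) := Fin.val_rev x
    have h2 : (x : ℕ) < N := x.2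
    omega
  rw [this, zpow_zero]

theorem Dl_eq (N : ℕ) (v : ℂ) (i : ℕ) (f : F (Fin N)) (σ : ℕ → Fin N) :
    Dl (datJ N v) i f σ = if σ (i + 1) = Fin.rev (σ i) then kap N v (σ i) * f (delS i σ) else 0 :=
  rfl

theorem Et_lt (N : ℕ) (v : ℂ) (i k : ℕ) (hk : k < i) (f : F (Fin N)) (σ : ℕ → Fin N) :
    Et N v (Dl (datJ N v) i f) σ k =
      if σ (i + 1) = Fin.rev (σ i) then kap N v (σ i) * Et N v f (delS i σ) k else 0 := by
  have e0 : delS i σ k = σ k := by simp [delS, hk]
  unfold Et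
  rw [e0]
  by_cases h : (σ k : ℕ) + 1 < N
  · rw [dif_pos h, dif_pos h, Dl_eq]
    have e1 : Function.update σ k (⟨(σ k : ℕ) + 1, h⟩ : Fin N) (i + 1) = σ (i + 1) :=
      Function.update_of_ne (by omega) _ _
    have e2 : Function.update σ k (⟨(σ k : ℕ) + 1, h⟩ : Fin N) i = σ i :=
      Function.update_of_ne (by omega) _ _
    have e3 : delS i (Function.update σ k (⟨(σ k : ℕ) + 1, h⟩ : Fin N)) =
        Function.update (delS i σ) k ⟨(σ k : ℕ) + 1, h⟩ := by
      funext p
      by_cases hp : p = k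
      · subst hp
        simp [delS, hk]
      · rw [Function.update_of_ne hp]
        unfold delS
        by_cases hpi : p < i
        · rw [if_pos hpi, if_pos hpi, Function.update_of_ne hp]
        · rw [if_neg hpi, if_neg hpi, Function.update_of_ne (by omega)]
    rw [e1, e2, e3]
    split_ifs
    · ring
    · ring
  · rw [dif_neg h, dif_neg h]
    simp

theorem Et_ge (N : ℕ) (v : ℂ) (i k : ℕ) (f : F (Fin N)) (σ : ℕ → Fin N) :
    Et N v (Dl (datJ N v) i f) σ (i + (k + 1 + 1)) =
      if σ (i + 1) = Fin.rev (σ i) then kap N v (σ i) * Et N v f (delS i σ) (i + k) else 0 := by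
  have e0 : delS i σ (i + k) = σ (i + (k + 1 + 1)) := by
    simp [delS]
    rfl
  unfold Et
  rw [e0]
  by_cases h : (σ (i + (k + 1 + 1)) : ℕ) + 1 < N
  · rw [dif_pos h, dif_pos h, Dl_eq]
    have e1 : Function.update σ (i + (k + 1 + 1)) (⟨(σ (i + (k + 1 + 1)) : ℕ) + 1, h⟩ : Fin N)
        (i + 1) = σ (i + 1) :=
      Function.update_of_ne (by omega) _ _
    have e2 : Function.update σ (i + (k + 1 + 1)) (⟨(σ (i + (k + 1 + 1)) : ℕ) + 1, h⟩ : Fin N) i =
        σ i :=
      Function.update_of_ne (by omega) _ _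
    have e3 : delS i (Function.update σ (i + (k + 1 + 1))
          (⟨(σ (i + (k + 1 + 1)) : ℕ) + 1, h⟩ : Fin N)) =
        Function.update (delS i σ) (i + k) ⟨(σ (i + (k + 1 + 1)) : ℕ) + 1, h⟩ := by
      funext p
      by_cases hp : p = i + k
      · subst hp
        rw [Function.update_self]
        unfold delS
        rw [if_neg (by omega)]
        have : i + k + 2 = i + (k + 1 + 1) := by omega
        rw [this, Function.update_self]
      · rw [Function.update_of_ne hp]
        unfold delS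
        by_cases hpi : p < i
        · rw [if_pos hpi, if_pos hpi, Function.update_of_ne (by omega)]
        · rw [if_neg hpi, if_neg hpi, Function.update_of_ne (by omega)]
    rw [e1, e2, e3]
    split_ifs
    · ring
    · ring
  · rw [dif_neg h, dif_neg h]
    simp

theorem kap_step (N : ℕ) (v : ℂ) (hv : v ≠ 0) (x y : ℕ) (h : x + y + 2 = N) :
    v ^ ((N : ℤ) - 1 - 2 * (y : ℕ)) * (br v ((N : ℤ) - ((x : ℕ) + 1)) * kap N v (x + 1)) +
      br v ((N : ℤ) - ((y : ℕ) + 1)) * kap N v x = 0 := by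
  unfold kap
  have e1 : brf v (x + 1) = brf v x * br v ((x : ℤ) + 1) := by
    unfold brf
    rw [prod_range_succ]
  have e2 : brf v (N - 1 - x) = brf v (N - 1 - (x + 1)) * br v ((N : ℤ) - ((x : ℕ) + 1)) := by
    have h1 : N - 1 - x = (N - 1 - (x + 1)) + 1 := by omega
    rw [h1]
    unfold brf
    rw [prod_range_succ]
    congr 2
    omega
  have e3 : ((N : ℤ) - ((y : ℕ) + 1)) = (x : ℤ) + 1 := by omega
  rw [e1, e2, e3]
  have e4 : v ^ ((x : ℤ) * ((N : ℤ) - 2 - x)) =
      v ^ ((N : ℤ) - 1 - 2 * (y : ℕ)) * v ^ (((x + 1 : ℕ) : ℤ) * ((N : ℤ) - 2 - ((x + 1 : ℕ) : ℤ))) := by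
    rw [← zpow_add₀ hv]
    congr 1
    have h2 : (N : ℤ) = x + y + 2 := by omega
    rw [h2]
    push_cast
    ring
  rw [e4]
  ring

theorem Et_mid (N : ℕ) (v : ℂ) (hv : v ≠ 0) (i : ℕ) (f : F (Fin N)) (σ : ℕ → Fin N) :
    wv N v (σ (i + 1)) * Et N v (Dl (datJ N v) i f) σ i + Et N v (Dl (datJ N v) i f) σ (i + 1) =
      0 := by
  have d1 : ∀ z : Fin N, delS i (Function.update σ i z) = delS i σ := by
    intro z
    funext p
    unfold delS
    by_cases hpi : p < i
    · rw [if_pos hpi, if_pos hpi, Function.update_of_ne (by omega)]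
    · rw [if_neg hpi, if_neg hpi, Function.update_of_ne (by omega)]
  have d2 : ∀ z : Fin N, delS i (Function.update σ (i + 1) z) = delS i σ := by
    intro z
    funext p
    unfold delS
    by_cases hpi : p < i
    · rw [if_pos hpi, if_pos hpi, Function.update_of_ne (by omega)]
    · rw [if_neg hpi, if_neg hpi, Function.update_of_ne (by omega)]
  have hx := (σ i).2
  have hy := (σ (i + 1)).2
  by_cases hN : (σ i : ℕ) + (σ (i + 1) : ℕ) + 2 = N
  · have h1 : (σ i : ℕ) + 1 < N := by omega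
    have h2 : (σ (i + 1) : ℕ) + 1 < N := by omega
    have a1 : Et N v (Dl (datJ N v) i f) σ i =
        br v ((N : ℤ) - ((σ i : ℕ) + 1)) * (kap N v ((σ i : ℕ) + 1) * f (delS i σ)) := by
      unfold Et
      rw [dif_pos h1, Dl_eq, Function.update_of_ne (by omega), Function.update_self, d1, if_pos]
      apply Fin.ext
      rw [Fin.val_rev]
      simp only
      omega
    have a2 : Et N v (Dl (datJ N v) i f) σ (i + 1) =
        br v ((N : ℤ) - ((σ (i + 1) : ℕ) + 1)) * (kap N v (σ i : ℕ) * f (delS i σ)) := by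
      unfold Et
      rw [dif_pos h2, Dl_eq, Function.update_self, Function.update_of_ne (by omega), d2, if_pos]
      apply Fin.ext
      rw [Fin.val_rev]
      simp only
      omega
    rw [a1, a2]
    have := kap_step N v hv (σ i) (σ (i + 1)) hN
    unfold wv
    linear_combination f (delS i σ) * this
  · have a1 : Et N v (Dl (datJ N v) i f) σ i = 0 := by
      unfold Et
      split_ifs with h1
      · rw [Dl_eq, Function.update_of_ne (by omega), Function.update_self, if_neg, mul_zero]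
        intro hc
        have := congrArg Fin.val hc
        rw [Fin.val_rev] at this
        simp only at this
        omega
      · rfl
    have a2 : Et N v (Dl (datJ N v) i f) σ (i + 1) = 0 := by
      unfold Et
      split_ifs with h1
      · rw [Dl_eq, Function.update_self, Function.update_of_ne (by omega), if_neg, mul_zero]
        intro hc
        have := congrArg Fin.val hc
        rw [Fin.val_rev] at this
        simp only at this
        omega
      · rfl
    rw [a1, a2]
    ring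

theorem s_ed : S_ED := by
  intro N v hv i n hin f
  obtain ⟨hv0, -⟩ := hv
  obtain ⟨m, rfl⟩ := Nat.exists_eq_add_of_le hin
  funext σ
  rw [Dl_eq, Ea_eq, Ea_eq]
  have e1 : i + m + 2 = i + (m + 1 + 1) := by omega
  rw [e1, sum_range_add, sum_range_add, sum_range_succ', sum_range_succ']
  set Q : ℂ := ∏ j ∈ Ico (i + 2) (i + (m + 1 + 1)), wv N v (σ j) with hQ
  have p1 : ∀ k < i, ∏ j ∈ Ico (k + 1) (i + (m + 1 + 1)), wv N v (σ j) =
      (∏ j ∈ Ico (k + 1) i, wv N v (σ j)) * (wv N v (σ i) * wv N v (σ (i + 1))) * Q := by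
    intro k hk
    rw [← prod_Ico_consecutive _ (show k + 1 ≤ i from hk) (show i ≤ i + (m + 1 + 1) by omega),
      ← prod_Ico_consecutive _ (show i ≤ i + 2 by omega) (show i + 2 ≤ i + (m + 1 + 1) by omega),
      ← mul_assoc]
    congr 2
    rw [prod_Ico_succ_top (by omega), prod_Ico_succ_top (by omega)]
    simp
  have q1 : ∀ a, i ≤ a → ∏ j ∈ Ico a (i + m), wv N v (delS i σ j) =
      ∏ j ∈ Ico (a + 2) (i + (m + 1 + 1)), wv N v (σ j) := by
    intro a ha
    have h1 : ∏ j ∈ Ico a (i + m), wv N v (delS i σ j) = ∏ j ∈ Ico a (i + m), wv N v (σ (j + 2)) := by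
      refine prod_congr rfl fun j hj => ?_
      rw [mem_Ico] at hj
      unfold delS
      rw [if_neg (by omega)]
    rw [h1, prod_Ico_add' (fun j => wv N v (σ j)) a (i + m) 2]
    rfl
  have p2 : ∀ k < i, ∏ j ∈ Ico (k + 1) (i + m), wv N v (delS i σ j) =
      (∏ j ∈ Ico (k + 1) i, wv N v (σ j)) * Q := by
    intro k hk
    rw [← prod_Ico_consecutive _ (show k + 1 ≤ i from hk) (show i ≤ i + m by omega), q1 i le_rfl]
    congr 1
    refine prod_congr rfl fun j hj => ?_
    rw [mem_Ico] at hj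
    unfold delS
    rw [if_pos hj.2]
  have p3 : ∏ j ∈ Ico (i + 0 + 1) (i + (m + 1 + 1)), wv N v (σ j) = wv N v (σ (i + 1)) * Q := by
    rw [add_zero, ← prod_Ico_consecutive _ (show i + 1 ≤ i + 2 by omega)
      (show i + 2 ≤ i + (m + 1 + 1) by omega)]
    congr 1
    simp
  have hmid := Et_mid N v hv0 i f σ
  rw [p3]
  have hR1 : ∑ k ∈ range i, (∏ j ∈ Ico (k + 1) (i + (m + 1 + 1)), wv N v (σ j)) *
      Et N v (Dl (datJ N v) i f) σ k = if σ (i + 1) = Fin.rev (σ i) then kap N v (σ i) *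
        ∑ k ∈ range i, (∏ j ∈ Ico (k + 1) (i + m), wv N v (delS i σ j)) *
          Et N v f (delS i σ) k else 0 := by
    by_cases hc : σ (i + 1) = Fin.rev (σ i)
    · rw [if_pos hc, mul_sum]
      refine sum_congr rfl fun k hk => ?_
      rw [mem_range] at hk
      rw [p1 k hk, p2 k hk, Et_lt N v i k hk, if_pos hc, hc, wv_rev N v hv0]
      ring
    · rw [if_neg hc]
      refine sum_eq_zero fun k hk => ?_
      rw [mem_range] at hk
      rw [Et_lt N v i k hk, if_neg hc, mul_zero]
  have hR2 : ∑ k ∈ range m, (∏ j ∈ Ico (i + (k + 1 + 1) + 1) (i + (m + 1 + 1)), wv N v (σ j)) *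
      Et N v (Dl (datJ N v) i f) σ (i + (k + 1 + 1)) = if σ (i + 1) = Fin.rev (σ i) then
        kap N v (σ i) * ∑ k ∈ range m, (∏ j ∈ Ico (i + k + 1) (i + m), wv N v (delS i σ j)) *
          Et N v f (delS i σ) (i + k) else 0 := by
    by_cases hc : σ (i + 1) = Fin.rev (σ i)
    · rw [if_pos hc, mul_sum]
      refine sum_congr rfl fun k hk => ?_
      rw [Et_ge N v i k, if_pos hc, q1 (i + k + 1) (by omega)]
      have : i + (k + 1 + 1) + 1 = i + k + 1 + 2 := by omega
      rw [this]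
      ring
    · rw [if_neg hc]
      refine sum_eq_zero fun k hk => ?_
      rw [Et_ge N v i k, if_neg hc, mul_zero]
  rw [hR1, hR2]
  have hz : i + (0 + 1) = i + 1 := by omega
  rw [hz]
  simp only [add_zero]
  split_ifs with hc
  · linear_combination (-Q) * hmid
  · linear_combination (-Q) * hmid

end Pool.Agent.N283.VV
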